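import Mathlib
import Pool.Agent.H21.Grid

open Finset Filter Topology Pool.Agent.H21.Grid

namespace Pool.Agent.Results.MP_0b0399_co.TwelveFifths

/-- `F` contains no weak copy of the diamond. -/
def WeakFree {k d : ℕ} (F : Finset (Fin d → Fin k)) : Prop :=
  ¬ ∃ a ∈ F, ∃ b ∈ F, ∃ c ∈ F, ∃ e ∈ F, a < b ∧ a < c ∧ b < e ∧ c < e ∧ b ≠ c

/-- `F` contains no strong (induced) copy of the diamond. -/
def StrongFree {k d : ℕ} (F : Finset (Fin d → Fin k)) : Prop :=
  ¬ ∃ a ∈ F, ∃ b ∈ F, ∃ c ∈ F, ∃ e ∈ F, a < b ∧ a < c ∧ b < e ∧ c < e ∧ ¬ b ≤ c ∧ ¬ c ≤ b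

/-- The largest size of a weak diamond-free subset of `[k]^d`. -/
noncomputable def la (k d : ℕ) : ℕ := best k d WeakFree

/-- The largest size of a strong diamond-free subset of `[k]^d`. -/
noncomputable def laStar (k d : ℕ) : ℕ := best k d StrongFree

theorem sm_lt {k : ℕ} {x y : Fin 3 → Fin k} (h : x < y) : sm x < sm y := by
  have h1 := (le3 x y).1 h.le
  have h2 := mt (le3 y x).2 (not_le_of_gt h)
  unfold sm; omega

theorem bound (m : ℕ) (hm : 4 ≤ m) : 12 * (m * (3 * m - 8)) ≤ 5 * laStar (2 * m) 3 := by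
  have hl : ∀ x, x ∈ lev (2 * m) (3 * m + 3) → sm x = 3 * m + 3 := fun x hx => by
    simpa [lev] using hx
  have h : ∀ c, (fam (2 * m) (3 * m) c).card + (lev (2 * m) (3 * m + 3)).card ≤
      laStar (2 * m) 3 := fun c => by
    rw [← card_union_of_disjoint (disjoint_left.2 fun x h1 h2 => by
      have := fam_lev h1; have := hl x h2; omega)]
    refine le_best ?_
    rintro ⟨a, ha, x, hx, y, hy, e, he, h1, h2, h3, h4, h5, h6⟩
    have he' : sm e ≤ 3 * m + 3 := by
      rcases mem_union.1 he with h | h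
      · have := fam_lev h; omega
      · exact (hl e h).le
    have := sm_lt h1
    have := sm_lt h3
    have := sm_lt h4
    have key : ∀ z ∈ fam (2 * m) (3 * m) c ∪ lev (2 * m) (3 * m + 3), sm z < 3 * m + 3 →
        z ∈ fam (2 * m) (3 * m) c := fun z hz hlt =>
      (mem_union.1 hz).resolve_right fun h => by have := hl z h; omega
    exact (fam_chain (key a ha (by omega)) (key x hx (by omega)) (key y hy (by omega))
      h1.le h2.le).elim h5 h6
  have h1 := sum_le_card_nsmul (range 5) _ _ (fun c _ => h c)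
  rw [sum_add_distrib, fam_sum] at h1
  have l0 := lev_ge m 0 (by omega) hm
  have l1 := lev_ge m 1 (by omega) hm
  have l2 := lev_ge m 2 (by omega) hm
  have l3 := lev_ge m 3 (by omega) hm
  simp only [add_zero, card_range, smul_eq_mul, sum_const] at l0 h1
  omega

theorem result :
    ¬ ∀ d : ℕ, 2 ≤ d →
      Tendsto (fun k : ℕ => (la k d : ℝ) / width k d) atTop (𝓝 (2 + 1 / (d : ℝ))) ∧
      Tendsto (fun k : ℕ => (laStar k d : ℝ) / width k d) atTop (𝓝 (2 + 1 / (d : ℝ))) :=
  fun h =>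
    not_tendsto (fun k => laStar k 3) 12 _ (by norm_num) bound (h 3 (by norm_num)).2

end Pool.Agent.Results.MP_0b0399_co.TwelveFifths
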